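import Pool.Agent.H84.R2.B.S8.W133.DQ.Defs

set_option autoImplicit false

open scoped ContDiff
open Set Filter Topology

namespace Pool.Agent.W133.DQ

/-! ## Statements, group C (Smale's theorem), group D (annulus), group E (germs at the origin). -/

/-- unit vector field with angle function `ψ`. -/
noncomputable def XF (ψ : P2 → ℝ) (p : P2) : P2 := (Real.cos (ψ p), Real.sin (ψ p))

/-- `Φ` is the flow of the vector field `X`. -/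
def IsFl (X : P2 → P2) (Φ : ℝ → Equiv.Perm P2) : Prop :=
  Φ 0 = 1 ∧ (∀ s t, Φ (s + t) = Φ s * Φ t) ∧ ContDiff ℝ ∞ (fun q : ℝ × P2 => Φ q.1 q.2) ∧
    ∀ t p, HasDerivAt (fun s => Φ s p) (X (Φ t p)) t

/-- smooth path of compactly supported diffeomorphisms, constant outside `[0,1]`. -/
def CPath (F : ℝ → Equiv.Perm P2) : Prop :=
  SPath F ∧ (∀ t, t ≤ 0 → F t = F 0) ∧ (∀ t, 1 ≤ t → F t = F 1)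

/-- ANGLE: the global angle function of `f_* ∂_x`. -/
def S_ANGLE : Prop := ∀ f ∈ DC, ∃ φ : P2 → ℝ, ContDiff ℝ ∞ φ ∧ (∃ R : ℝ, 0 < R ∧ ∀ p, R ≤ ‖p‖ → φ p = 0) ∧
  ∀ p, ∃ ρ : ℝ, 0 < ρ ∧
    fderiv ℝ (fun q => f q) p (1, 0) = (ρ * Real.cos (φ (f p)), ρ * Real.sin (φ (f p)))

/-- MINSET: lowest recurrent point in a compact invariant set. -/
def S_MINSET : Prop := ∀ Φ : ℝ → Equiv.Perm P2, Φ 0 = 1 → (∀ s t, Φ (s + t) = Φ s * Φ t) →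
  Continuous (fun q : ℝ × P2 => Φ q.1 q.2) → ∀ M : Set P2, IsCompact M → M.Nonempty →
  (∀ t, ∀ p ∈ M, Φ t p ∈ M) →
  ∃ m ∈ M, (∀ t : ℝ, m.2 ≤ (Φ t m).2) ∧ ∀ ε : ℝ, 0 < ε → ∀ T₀ : ℝ, ∃ t : ℝ, T₀ < t ∧ ‖Φ t m - m‖ < ε

/-- LIFT: angle functions on convex sets. -/
def S_LIFT : Prop := ∀ (K : Set (ℝ × ℝ)) (e : ℝ × ℝ → P2), Convex ℝ K → IsCompact K →
  ContinuousOn e K → (∀ q ∈ K, e q ≠ 0) →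
  ∃ Θ : ℝ × ℝ → ℝ, ContinuousOn Θ K ∧
    ∀ q ∈ K, ∃ r : ℝ, 0 < r ∧ e q = (r * Real.cos (Θ q), r * Real.sin (Θ q))

/-- CURVE: the Umlaufsatz type contradiction. -/
def S_CURVE : Prop := ∀ (ψ : P2 → ℝ) (c : ℝ → P2) (τ : ℝ), Continuous ψ → 0 < τ →
  (∀ t, HasDerivAt c (XF ψ (c t)) t) →
  (∀ t, 0 ≤ t → t ≤ τ → (c 0).2 ≤ (c t).2) → ψ (c 0) = 0 → (c τ).1 = (c 0).1 →
  |ψ (c τ)| < Real.pi / 2 →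
  (∀ s t, 0 ≤ s → s < t → t ≤ τ → c s = c t → s = 0 ∧ t = τ) →
  (∀ t, 0 < t → t < τ → ¬ ((c t).1 = (c 0).1 ∧ (c t).2 ≤ (c τ).2)) → False

/-- RETURN: first return time. -/
def S_RETURN : Prop := ∀ (ψ : P2 → ℝ) (c : ℝ → P2), Continuous ψ →
  (∀ t, HasDerivAt c (XF ψ (c t)) t) → (∀ s t, c s = c t → ∀ u, c (s + u) = c (t + u)) →
  (∀ t, (c 0).2 ≤ (c t).2) → ψ (c 0) = 0 →
  (∀ ε : ℝ, 0 < ε → ∀ T₀ : ℝ, ∃ t : ℝ, T₀ < t ∧ ‖c t - c 0‖ < ε) →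
  ∃ τ : ℝ, 0 < τ ∧ (c τ).1 = (c 0).1 ∧ |ψ (c τ)| < Real.pi / 2 ∧
    (∀ s t, 0 ≤ s → s < t → t ≤ τ → c s = c t → s = 0 ∧ t = τ) ∧
    (∀ t, 0 < t → t < τ → ¬ ((c t).1 = (c 0).1 ∧ (c t).2 ≤ (c τ).2))

/-- NOINV: no compact invariant sets (from MINSET, RETURN, CURVE). -/
def S_NOINV : Prop := ∀ (ψ : P2 → ℝ) (Φ : ℝ → Equiv.Perm P2), ContDiff ℝ ∞ ψ → IsFl (XF ψ) Φ →
  ∀ M : Set P2, IsCompact M → M.Nonempty → (∀ t, ∀ p ∈ M, Φ t p ∈ M) → False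

/-- ESC: all orbits go from the far left to the far right. -/
def S_ESC : Prop := ∀ (ψ : P2 → ℝ) (R : ℝ) (Φ : ℝ → Equiv.Perm P2), ContDiff ℝ ∞ ψ → 0 < R →
  (∀ p, R ≤ ‖p‖ → ψ p = 0) → IsFl (XF ψ) Φ → ∀ p : P2,
  (∃ T : ℝ, 0 ≤ T ∧ R < (Φ T p).1) ∧ (∃ T : ℝ, T ≤ 0 ∧ (Φ T p).1 < -R)

/-- STRAIGHT: straightening of the unit fields with angle `α(t) ψ`, `α = smoothTransition`. -/
def S_STRAIGHT : Prop := ∀ (ψ : P2 → ℝ) (R : ℝ), ContDiff ℝ ∞ ψ → 0 < R → (∀ p, R ≤ ‖p‖ → ψ p = 0) →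
  ∃ S : ℝ → Equiv.Perm P2, ContDiff ℝ ∞ (fun q : ℝ × P2 => S q.1 q.2) ∧
    ContDiff ℝ ∞ (fun q : ℝ × P2 => (S q.1)⁻¹ q.2) ∧
    (∀ t x y, HasDerivAt (fun s => S t (s, y))
      (XF (fun p => Real.smoothTransition t * ψ p) (S t (x, y))) x) ∧
    (∀ t (p : P2), (p.1 ≤ -R ∨ R ≤ |p.2|) → S t p = p) ∧
    (∀ t, t ≤ 0 → S t = 1) ∧ (∀ t, 1 ≤ t → S t = S 1) ∧
    ∃ X₀ : ℝ, R < X₀ ∧ (∀ t y, R < (S t (X₀, y)).1) ∧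
      ∀ t (p : P2), X₀ ≤ p.1 → S t p = ((S t (X₀, p.2)).1 + (p.1 - X₀), (S t (X₀, p.2)).2)

/-- CORR: correction on the right, to get compact supports. -/
def S_CORR : Prop := ∀ (R X₀ : ℝ) (S : ℝ → Equiv.Perm P2), 0 < R → R < X₀ →
  ContDiff ℝ ∞ (fun q : ℝ × P2 => S q.1 q.2) → ContDiff ℝ ∞ (fun q : ℝ × P2 => (S q.1)⁻¹ q.2) →
  (∀ t (p : P2), (p.1 ≤ -R ∨ R ≤ |p.2|) → S t p = p) →
  (∀ t, t ≤ 0 → S t = 1) → (∀ t, 1 ≤ t → S t = S 1) → (∀ t y, R < (S t (X₀, y)).1) →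
  (∀ t (p : P2), X₀ ≤ p.1 → S t p = ((S t (X₀, p.2)).1 + (p.1 - X₀), (S t (X₀, p.2)).2)) →
  ∃ F : ℝ → Equiv.Perm P2, CPath F ∧ F 0 = 1 ∧
    ((∀ y, (S 1 (X₀, y)).2 = y) → ∀ p, ((S 1)⁻¹ (F 1 p)).2 = p.2)

/-- PATH: `Diff_c(R^2)` is smoothly path connected. -/
def S_PATH : Prop := ∀ f ∈ DC, ∃ F : ℝ → Equiv.Perm P2, CPath F ∧ F 0 = 1 ∧ F 1 = f

/-- STEP: uniform small steps of a path. -/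
def S_STEP : Prop := ∀ F : ℝ → Equiv.Perm P2, SPath F → ∀ ε : ℝ, 0 < ε → ∃ N : ℕ, 1 ≤ N ∧
  ∀ i : ℕ, i < N → (∀ p, ‖(F ((i + 1 : ℝ) / N) * (F ((i : ℝ) / N))⁻¹) p - p‖ ≤ ε) ∧
    ∀ p, ‖fderiv ℝ (fun q => (F ((i + 1 : ℝ) / N) * (F ((i : ℝ) / N))⁻¹) q - q) p‖ ≤ ε

/-- GEN: a homomorphism that kills leaf preserving maps is zero on `DC` (from PATH, STEP, LPINV). -/
def S_GEN : Prop := ∀ L : Equiv.Perm P2 → ℝ, HomOn DC L → (∀ P ∈ LP, L P = 0) →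
  (∀ P ∈ VP, L P = 0) → ∀ f ∈ DC, L f = 0

/-- PP: every homomorphism `Diff_c(R^2) → R` is zero. -/
def S_PP : Prop := ∀ L : Equiv.Perm P2 → ℝ, HomOn DC L → ∀ f ∈ DC, L f = 0

/-! ### Group D -/

/-- compactly supported diffeomorphisms with support in the open square of radius `r` around `c`. -/
def DB (c : P2) (r : ℝ) : Set (Equiv.Perm P2) :=
  {f | f ∈ DC ∧ ∃ r' : ℝ, r' < r ∧ ∀ p, r' ≤ ‖p - c‖ → f p = p}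

/-- BOX: the local version of PP. -/
def S_BOX : Prop := ∀ (c : P2) (r : ℝ), 0 < r → ∀ L : Equiv.Perm P2 → ℝ,
  (∀ f ∈ DB c r, ∀ g ∈ DB c r, L (f * g) = L f + L g) → ∀ f ∈ DB c r, L f = 0

/-- TRV: smooth family of translations, cut off. -/
def S_TRV : Prop := ∀ R : ℝ, 0 < R → ∃ P : P2 → Equiv.Perm P2,
  ContDiff ℝ ∞ (fun q : P2 × P2 => P q.1 q.2) ∧ ContDiff ℝ ∞ (fun q : P2 × P2 => (P q.1)⁻¹ q.2) ∧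
  P 0 = 1 ∧ (∀ v p : P2, ‖v‖ ≤ R → ‖p‖ ≤ 1 → P v p = p + v) ∧
  ∃ R' : ℝ, ∀ v p : P2, R' < ‖p‖ → P v p = p

/-- `cu s = 1` for `s ≤ 1`, `0` for `s ≥ 2`. -/
noncomputable def cu (s : ℝ) : ℝ := Real.smoothTransition (2 - s)

/-- rotation by the angle `θ cu(|p|^2)`. -/
noncomputable def rotf (θ : ℝ) (p : P2) : P2 :=
  (Real.cos (θ * cu (p.1 ^ 2 + p.2 ^ 2)) * p.1 - Real.sin (θ * cu (p.1 ^ 2 + p.2 ^ 2)) * p.2,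
    Real.sin (θ * cu (p.1 ^ 2 + p.2 ^ 2)) * p.1 + Real.cos (θ * cu (p.1 ^ 2 + p.2 ^ 2)) * p.2)

theorem rotf_sq (θ : ℝ) (p : P2) : (rotf θ p).1 ^ 2 + (rotf θ p).2 ^ 2 = p.1 ^ 2 + p.2 ^ 2 := by
  unfold rotf
  generalize θ * cu (p.1 ^ 2 + p.2 ^ 2) = a
  have := Real.sin_sq_add_cos_sq a
  simp only
  linear_combination (p.1 ^ 2 + p.2 ^ 2) * this

theorem rotf_rotf (θ θ' : ℝ) (p : P2) : rotf θ (rotf θ' p) = rotf (θ + θ') p := by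
  have h := rotf_sq θ' p
  have e : rotf θ (rotf θ' p) =
    (Real.cos (θ * cu (p.1 ^ 2 + p.2 ^ 2)) * (rotf θ' p).1 -
      Real.sin (θ * cu (p.1 ^ 2 + p.2 ^ 2)) * (rotf θ' p).2,
    Real.sin (θ * cu (p.1 ^ 2 + p.2 ^ 2)) * (rotf θ' p).1 +
      Real.cos (θ * cu (p.1 ^ 2 + p.2 ^ 2)) * (rotf θ' p).2) := by
    rw [rotf, h]
  rw [e, rotf, rotf, add_mul]
  generalize θ * cu (p.1 ^ 2 + p.2 ^ 2) = a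
  generalize θ' * cu (p.1 ^ 2 + p.2 ^ 2) = b
  rw [Real.cos_add, Real.sin_add]
  ext <;> ring

theorem rotf_zero (p : P2) : rotf 0 p = p := by
  unfold rotf
  simp

/-- the rotation as a permutation; `rot (2π)` is the Dehn twist. -/
noncomputable def rot (θ : ℝ) : Equiv.Perm P2 where
  toFun := rotf θ
  invFun := rotf (-θ)
  left_inv p := by rw [rotf_rotf, neg_add_cancel, rotf_zero]
  right_inv p := by rw [rotf_rotf, add_neg_cancel, rotf_zero]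

/-- ROT: facts about `rot`. -/
def S_ROT : Prop := ContDiff ℝ ∞ (fun q : ℝ × P2 => rot q.1 q.2) ∧ rot 0 = 1 ∧
  (∀ s t, rot (s + t) = rot s * rot t) ∧ (∀ θ, rot θ ∈ DC0) ∧ (∀ n : ℤ, rot (2 * Real.pi * n) ∈ NP) ∧
  (∀ (θ : ℝ) (p : P2), 2 ≤ ‖p‖ → rot θ p = p) ∧
  (∀ (θ : ℝ) (p : P2), ‖p‖ ≤ 1 / 2 →
    rot θ p = (Real.cos θ * p.1 - Real.sin θ * p.2, Real.sin θ * p.1 + Real.cos θ * p.2))

/-- UT: smooth family of upper triangular maps, cut off. -/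
def S_UT : Prop := ∀ B : ℝ, 0 < B → ∃ l : ℝ × ℝ × ℝ → Equiv.Perm P2,
  ContDiff ℝ ∞ (fun q : (ℝ × ℝ × ℝ) × P2 => l q.1 q.2) ∧
  ContDiff ℝ ∞ (fun q : (ℝ × ℝ × ℝ) × P2 => (l q.1)⁻¹ q.2) ∧ l 0 = 1 ∧ (∀ w, l w 0 = 0) ∧
  (∃ ε : ℝ, 0 < ε ∧ ∀ (w : ℝ × ℝ × ℝ) (p : P2), ‖w‖ ≤ B → ‖p‖ ≤ ε →
    l w p = (Real.exp w.1 * (p.1 + w.2.2 * p.2), Real.exp w.2.1 * p.2)) ∧
  ∃ R' : ℝ, ∀ (w : ℝ × ℝ × ℝ) (p : P2), R' < ‖p‖ → l w p = p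

/-- GERM: extension of a smooth family of germs tangent to the identity. -/
def S_GERM : Prop := ∀ h : ℝ × P2 → P2, ContDiff ℝ ∞ h → (∀ t, h (t, 0) = 0) →
  (∀ t, fderiv ℝ (fun p : P2 => h (t, p)) 0 = ContinuousLinearMap.id ℝ P2) →
  (∀ t p, t ≤ 0 → h (t, p) = h (0, p)) → (∀ t p, 1 ≤ t → h (t, p) = h (1, p)) →
  ∀ ε₀ : ℝ, 0 < ε₀ → ∃ (ε : ℝ) (M : ℝ → Equiv.Perm P2), 0 < ε ∧ ε < ε₀ ∧
    ContDiff ℝ ∞ (fun q : ℝ × P2 => M q.1 q.2) ∧ ContDiff ℝ ∞ (fun q : ℝ × P2 => (M q.1)⁻¹ q.2) ∧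
    (∀ t p, ‖p‖ ≤ ε → M t p = h (t, p)) ∧ (∀ t p, ε₀ ≤ ‖p‖ → M t p = p) ∧
    (∀ t, (∀ p : P2, ‖p‖ ≤ ε₀ → h (t, p) = p) → M t = 1) ∧
    (∀ t, t ≤ 0 → M t = M 0) ∧ (∀ t, 1 ≤ t → M t = M 1)

/-- ANG1: angle of a smooth loop in the punctured plane. -/
def S_ANG1 : Prop := ∀ a b : ℝ → ℝ, ContDiff ℝ ∞ a → ContDiff ℝ ∞ b →
  (∀ t, a t ^ 2 + b t ^ 2 ≠ 0) → a 0 = 1 → b 0 = 0 →
  (∀ t, t ≤ 0 → a t = a 0 ∧ b t = b 0) → (∀ t, 1 ≤ t → a t = a 1 ∧ b t = b 1) →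
  ∃ θ : ℝ → ℝ, ContDiff ℝ ∞ θ ∧ θ 0 = 0 ∧
    (∀ t, a t = Real.sqrt (a t ^ 2 + b t ^ 2) * Real.cos (θ t)) ∧
    (∀ t, b t = Real.sqrt (a t ^ 2 + b t ^ 2) * Real.sin (θ t)) ∧
    (∀ t, t ≤ 0 → θ t = 0) ∧ (∀ t, 1 ≤ t → θ t = θ 1)

/-- DPATH: paths in the annulus group, after a Dehn twist (from PATH, TRV, ROT, UT, GERM, ANG1). -/
def S_DPATH : Prop := ∀ f ∈ NP, ∃ (k : ℤ) (F : ℝ → Equiv.Perm P2), CPath F ∧ F 0 = 1 ∧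
  F 1 = rot (2 * Real.pi * k) * f ∧ ∃ ε : ℝ, 0 < ε ∧ ∀ t p, ‖p‖ < ε → F t p = p

/-- FRAG: fragmentation of small elements of the annulus group. -/
def S_FRAG : Prop := ∀ L : Equiv.Perm P2 → ℝ, HomOn NP L →
  (∀ (c : P2) (r : ℝ), 0 < r → r < ‖c‖ → ∀ f ∈ DB c r, L f = 0) →
  ∀ ε R : ℝ, 0 < ε → 0 < R → ∃ δ : ℝ, 0 < δ ∧ ∀ h ∈ DC, (∀ p, (‖p‖ < ε ∨ R < ‖p‖) → h p = p) →
    (∀ p, ‖h p - p‖ ≤ δ) → (∀ p, ‖fderiv ℝ (fun q => h q - q) p‖ ≤ δ) → L h = 0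

/-- NKILL: homomorphisms of the annulus group (from DPATH, STEP, FRAG, BOX). -/
def S_NKILL : Prop := ∀ L : Equiv.Perm P2 → ℝ, HomOn NP L → L (rot (2 * Real.pi)) = 0 →
  ∀ f ∈ NP, L f = 0

/-! ### Group A: algebra of quasimorphisms -/

/-- A1: conjugation invariance, additivity on commuting elements, inverse. -/
def S_A1 : Prop := ∀ (Γ : Type) [Group Γ] (H : Subgroup Γ) (μ : Γ → ℝ), HQMOn H μ →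
  (∀ a ∈ H, ∀ b ∈ H, μ (b * a * b⁻¹) = μ a) ∧
  (∀ a ∈ H, ∀ b ∈ H, a * b = b * a → μ (a * b) = μ a + μ b) ∧ μ 1 = 0 ∧ (∀ a ∈ H, μ a⁻¹ = - μ a) ∧
  (∀ (K : Subgroup Γ) (D : ℝ), K ≤ H → (∀ a ∈ K, |μ a| ≤ D) → ∀ a ∈ K, μ a = 0)

/-- A2: displacement. -/
def S_A2 : Prop := ∀ (Γ : Type) [Group Γ] (H K : Subgroup Γ) (μ : Γ → ℝ) (g : Γ), HQMOn H μ →
  K ≤ H → g ∈ H → (∀ k : ℕ, 1 ≤ k → ∀ a ∈ K, ∀ b ∈ K, Commute (g ^ k * a * (g ^ k)⁻¹) b) → HomOn K μ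

/-- A3: vanishing on a normalised subgroup. -/
def S_A3 : Prop := ∀ (Γ : Type) [Group Γ] (H N : Subgroup Γ) (μ : Γ → ℝ), HQMOn H μ → N ≤ H →
  (∀ a ∈ H, ∀ n ∈ N, a * n * a⁻¹ ∈ N) → (∀ n ∈ N, μ n = 0) →
  (∀ a ∈ H, ∀ n ∈ N, μ (a * n) = μ a ∧ μ (n * a) = μ a)

/-- A4: assembly. -/
def S_A4 : Prop := ∀ (Γ : Type) [Group Γ] (H H₀ H₁ : Subgroup Γ) (μ : Γ → ℝ), HQMOn H μ →
  H₀ ≤ H → H₁ ≤ H → (∀ a ∈ H, ∀ n ∈ H₀, a * n * a⁻¹ ∈ H₀) → (∀ a ∈ H, ∀ n ∈ H₁, a * n * a⁻¹ ∈ H₁) →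
  (∀ a ∈ H, ∃ b ∈ H₀, ∃ c ∈ H₁, a = b * c) → (∀ n ∈ H₀, n ∈ H₁ → μ n = 0) →
  HomOn H₀ μ → HomOn H₁ μ → HomOn H μ

/-- AGL: homogeneous quasimorphisms of `GL_2^+(R)` are homomorphisms. -/
def S_AGL : Prop := ∀ μ : Matrix (Fin 2) (Fin 2) ℝ → ℝ,
  (∃ D : ℝ, ∀ a b : Matrix (Fin 2) (Fin 2) ℝ, 0 < a.det → 0 < b.det → |μ (a * b) - μ a - μ b| ≤ D) →
  (∀ (a : Matrix (Fin 2) (Fin 2) ℝ) (n : ℕ), 0 < a.det → μ (a ^ n) = n * μ a) →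
  ∀ a b : Matrix (Fin 2) (Fin 2) ℝ, 0 < a.det → 0 < b.det → μ (a * b) = μ a + μ b

/-! ### Group E: germs at the origin -/

/-- SER: smoothness of the Sternberg series. -/
def S_SER : Prop := ∀ (E₁ E₂ V : Type) [NormedAddCommGroup E₁] [NormedSpace ℝ E₁]
  [FiniteDimensional ℝ E₁] [NormedAddCommGroup E₂] [NormedSpace ℝ E₂] [FiniteDimensional ℝ E₂]
  [NormedAddCommGroup V] [NormedSpace ℝ V] [FiniteDimensional ℝ V]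
  (F : E₁ × E₂ → E₁ × E₂) (a : E₁ × E₂ → V) (c κ : ℝ) (k : ℕ), ContDiff ℝ ∞ F → ContDiff ℝ ∞ a →
  0 < c → c < 1 → 0 < κ → (k = 1 ∨ k = 2) → c ^ k < κ →
  (∀ x : E₁, F (x, 0) = (x, 0)) → (∀ (x : E₁) (v : E₂), (fderiv ℝ F (x, 0) (0, v)).2 = c • v) →
  (∀ x : E₁, a (x, 0) = 0) → (k = 2 → ∀ (x : E₁) (v : E₂), fderiv ℝ a (x, 0) (0, v) = 0) →
  ∃ U : Set (E₁ × E₂), IsOpen U ∧ (∀ x : E₁, (x, (0 : E₂)) ∈ U) ∧ (∀ q ∈ U, F q ∈ U) ∧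
    (∀ q ∈ U, Summable (fun n : ℕ => (κ⁻¹) ^ n • a (F^[n] q))) ∧
    ContDiffOn ℝ ∞ (fun q => ∑' n : ℕ, (κ⁻¹) ^ n • a (F^[n] q)) U ∧
    ∀ x : E₁, ∃ η C : ℝ, 0 < η ∧ ∀ q : E₁ × E₂, ‖q - (x, 0)‖ < η →
      ‖∑' n : ℕ, (κ⁻¹) ^ n • a (F^[n] q)‖ ≤ C * ‖q.2‖ ^ k

/-- ST0: linearisation at the origin. -/
def S_ST0 : Prop := ∀ f : P2 → P2, ContDiff ℝ ∞ f → f 0 = 0 →
  fderiv ℝ f 0 = (1 / 2 : ℝ) • ContinuousLinearMap.id ℝ P2 →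
  ∃ (η : ℝ) (h : P2 → P2), 0 < η ∧ ContDiffOn ℝ ∞ h (Metric.ball 0 η) ∧ h 0 = 0 ∧
    fderiv ℝ h 0 = ContinuousLinearMap.id ℝ P2 ∧
    ∀ p, ‖p‖ < η → ‖f p‖ < η ∧ h (f p) = (1 / 2 : ℝ) • h p

/-- STB: linearisation along the boundary. -/
def S_STB : Prop := ∀ f : P2 → P2, ContDiff ℝ ∞ f → (∀ p : P2, f (p.1 + 1, p.2) = f p + (1, 0)) →
  (∀ x : ℝ, f (x, 0) = (x, 0)) → (∀ x : ℝ, (fderiv ℝ f (x, 0) (0, 1)).2 = 1 / 2) →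
  ∃ (η : ℝ) (h : P2 → P2), 0 < η ∧ ContDiffOn ℝ ∞ h {p : P2 | |p.2| < η} ∧
    (∀ p : P2, |p.2| < η → h (p.1 + 1, p.2) = h p + (1, 0)) ∧ (∀ x : ℝ, h (x, 0) = (x, 0)) ∧
    (∀ x : ℝ, (fderiv ℝ h (x, 0) (0, 1)).2 = 1) ∧
    ∀ p : P2, |p.2| < η → |(f p).2| < η ∧ h (f p) = ((h p).1, (h p).2 / 2)

/-- EXT0: extension of a germ tangent to the identity. -/
def S_EXT0 : Prop := ∀ (h : P2 → P2) (η : ℝ), 0 < η → ContDiffOn ℝ ∞ h (Metric.ball 0 η) → h 0 = 0 →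
  fderiv ℝ h 0 = ContinuousLinearMap.id ℝ P2 →
  ∃ M ∈ DC0, ∃ ε : ℝ, 0 < ε ∧ ∀ p, ‖p‖ < ε → M p = h p

/-- LIN: linear germs extend. -/
def S_LIN : Prop := ∀ a b c d : ℝ, 0 < a * d - b * c → ∃ M ∈ DC0, ∃ ε : ℝ, 0 < ε ∧
  ∀ p : P2, ‖p‖ < ε → M p = (a * p.1 + b * p.2, c * p.1 + d * p.2)

/-- LOC0: every orientation preserving germ at the origin extends. -/
def S_LOC0 : Prop := ∀ (φ : P2 → P2) (η : ℝ), 0 < η → ContDiffOn ℝ ∞ φ (Metric.ball 0 η) → φ 0 = 0 →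
  0 < (fderiv ℝ φ 0).det → ∃ M ∈ DC0, ∃ ε : ℝ, 0 < ε ∧ ∀ p, ‖p‖ < ε → M p = φ p

/-- K0: elements tangent to the identity. -/
def S_K0 : Prop := ∀ ν : Equiv.Perm P2 → ℝ, HQMOn DC0 ν → (∀ f ∈ NP, ν f = 0) → ∀ f ∈ DC0,
  fderiv ℝ (fun p => f p) 0 = ContinuousLinearMap.id ℝ P2 → ν f = 0

/-- EFIN: quasimorphisms on `DC0` vanishing on `NP` are homomorphisms. -/
def S_EFIN : Prop := ∀ ν : Equiv.Perm P2 → ℝ, HQMOn DC0 ν → (∀ f ∈ NP, ν f = 0) → HomOn DC0 ν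

end Pool.Agent.W133.DQ
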